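import Pool.Agent.Work.MP_320b68_gt.MainOn

/-!
An admissible arc in three-space whose Vietoris-Rips shadows fail to have its homotopy type at
every scale below one, already for samples lying on the arc.
-/

namespace Pool.Agent.Results.MP_320b68_gt.Counterexample

open Pool.Agent.Work.MP_320b68_gt

universe u

theorem result :
    ∃ M : Set (EuclideanSpace ℝ (Fin 3)), Admissible.{u} M ∧
      ∀ β : ℝ, 0 < β → β < 1 → ∀ η : ℝ, 0 < η →
        ∃ S : Finset (EuclideanSpace ℝ (Fin 3)), (S : Set (EuclideanSpace ℝ (Fin 3))) ⊆ M ∧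
          Metric.hausdorffEDist (S : Set (EuclideanSpace ℝ (Fin 3))) M < ENNReal.ofReal η ∧
            IsEmpty (ContinuousMap.HomotopyEquiv (shadow β S) M) :=
  ⟨γ '' Set.Icc 0 1, admissible_graph lipschitz_γ γ_zero, fun _ h0 h1 _ hη => main_on h0 h1 hη⟩

end Pool.Agent.Results.MP_320b68_gt.Counterexample
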