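import Pool.Agent.Work.MP_320b68_gt.Rob3

/-!
The round unit circle in eight-space: at every scale below one, arbitrarily close to the circle
there is a Hausdorff-open set of finite samples whose Vietoris-Rips shadows fail to have its
homotopy type.
-/

namespace Pool.Agent.Results.MP_320b68_gt.RobustCircle

open Pool.Agent.Work.MP_320b68_gt

universe u

theorem result (M : Set (EuclideanSpace ℝ (Fin 8)))
    (hM : M = {x | x 0 ^ 2 + x 1 ^ 2 = 1 ∧ ∀ j : Fin 8, 2 ≤ j → x j = 0}) :
    Admissible.{u} M ∧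
      ∀ β : ℝ, 0 < β → β < 1 → ∀ η : ℝ, 0 < η →
        ∃ (S₀ : Finset (EuclideanSpace ℝ (Fin 8))) (ρ : ℝ), 0 < ρ ∧
          ∀ S : Finset (EuclideanSpace ℝ (Fin 8)),
            Metric.hausdorffEDist (S : Set (EuclideanSpace ℝ (Fin 8)))
                (S₀ : Set (EuclideanSpace ℝ (Fin 8))) < ENNReal.ofReal ρ →
              Metric.hausdorffEDist (S : Set (EuclideanSpace ℝ (Fin 8))) M < ENNReal.ofReal η ∧
                IsEmpty (ContinuousMap.HomotopyEquiv (shadow β S) M) := by
  subst hM
  exact ⟨Circ.admissible_M, fun _ h0 h1 _ hη => Circ.rb_main h0 h1 hη⟩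

end Pool.Agent.Results.MP_320b68_gt.RobustCircle
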